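import Pool.Agent.helper7.BQ.Spec2

/-!
# Project BQ, row GRID: the mean square bound on a grid of `x`
-/

set_option autoImplicit false

namespace Pool.Agent.BQ

open Finset ArithmeticFunction MeasureTheory
open Pool.Agent.helper74.TG (ee gb)

theorem GRID_markov {ι : Type*} (s : Finset ι) (f : ι → ℝ) (c : ℝ) (hc : 0 < c) :
    (#(s.filter fun i => c < |f i|) : ℝ) * c ^ 2 ≤ ∑ i ∈ s, f i ^ 2 := by
  calc (#(s.filter fun i => c < |f i|) : ℝ) * c ^ 2
      = ∑ i ∈ s.filter (fun i => c < |f i|), c ^ 2 := by rw [sum_const, nsmul_eq_mul]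
    _ ≤ ∑ i ∈ s.filter (fun i => c < |f i|), f i ^ 2 := by
        apply sum_le_sum
        intro i hi
        rw [mem_filter] at hi
        rw [← sq_abs (f i)]
        exact pow_le_pow_left₀ hc.le hi.2.le 2
    _ ≤ ∑ i ∈ s, f i ^ 2 :=
        sum_le_sum_of_subset_of_nonneg (filter_subset _ _) (fun i _ _ => sq_nonneg _)

theorem GRID_sing_le (w : ℕ) (b : ℤ) : sing w b ≤ 2 ^ w := by
  unfold sing
  have hfac : ∀ l ∈ (Icc 1 w).filter Nat.Prime,
      0 ≤ ((l : ℝ) / ((l : ℝ) - 1) * (1 - (nu l b : ℝ) / ((l : ℝ) - 1))) ∧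
      ((l : ℝ) / ((l : ℝ) - 1) * (1 - (nu l b : ℝ) / ((l : ℝ) - 1))) ≤ 2 := by
    intro l hl
    rw [mem_filter] at hl
    have h2 : (2 : ℝ) ≤ l := by exact_mod_cast hl.2.two_le
    have hpos : (0 : ℝ) < (l : ℝ) - 1 := by linarith
    have hnu : (nu l b : ℝ) ≤ (l : ℝ) - 1 := by
      have h1 : nu l b ≤ l - 1 := by
        unfold nu
        refine (card_filter_le _ _).trans ?_
        simp
      have h3 : ((l - 1 : ℕ) : ℝ) = (l : ℝ) - 1 := by
        rw [Nat.cast_sub hl.2.one_le]; simp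
      rw [← h3]
      exact_mod_cast h1
    have hnu0 : (0 : ℝ) ≤ (nu l b : ℝ) / ((l : ℝ) - 1) := by positivity
    have hnu1 : (nu l b : ℝ) / ((l : ℝ) - 1) ≤ 1 := by
      rw [div_le_one hpos]; exact hnu
    have hl2 : (l : ℝ) / ((l : ℝ) - 1) ≤ 2 := by
      rw [div_le_iff₀ hpos]; linarith
    have hl0 : 0 ≤ (l : ℝ) / ((l : ℝ) - 1) := by positivity
    constructor
    · exact mul_nonneg hl0 (by linarith)
    · calc (l : ℝ) / ((l : ℝ) - 1) * (1 - (nu l b : ℝ) / ((l : ℝ) - 1))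
          ≤ 2 * 1 := mul_le_mul hl2 (by linarith) (by linarith) (by norm_num)
        _ = 2 := by norm_num
  calc ∏ l ∈ (Icc 1 w).filter Nat.Prime,
        ((l : ℝ) / ((l : ℝ) - 1) * (1 - (nu l b : ℝ) / ((l : ℝ) - 1)))
      ≤ ∏ _l ∈ (Icc 1 w).filter Nat.Prime, (2 : ℝ) :=
        prod_le_prod (fun l hl => (hfac l hl).1) (fun l hl => (hfac l hl).2)
    _ = 2 ^ #((Icc 1 w).filter Nat.Prime) := by rw [prod_const]
    _ ≤ 2 ^ w := by
        apply pow_le_pow_right₀ (by norm_num)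
        refine (card_filter_le _ _).trans ?_
        simp

/-- the arithmetic of one good pair `(x, b)` -/
theorem GRID_arith (ε w2 : ℝ) (hε : 0 < ε) (hw2 : 1 ≤ w2) (x L N R S s : ℝ) (hx : 0 < x)
    (hL : 0 < L) (hN : 0 ≤ N) (hs : s ≤ w2)
    (h1 : |R - x * S| ≤ (ε / 8) * x) (h2 : |S - s| ≤ ε / 8)
    (h3 : |R - 2 * L ^ 2 * N| ≤ min (1 / 2) (ε / (4 * (w2 + ε))) * (2 * L ^ 2 * N)) :
    |N / (x / (2 * L ^ 2)) - s| ≤ ε := by
  set e1 : ℝ := min (1 / 2) (ε / (4 * (w2 + ε))) with he1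
  have he1a : e1 ≤ 1 / 2 := min_le_left _ _
  have he1b : e1 ≤ ε / (4 * (w2 + ε)) := min_le_right _ _
  have he10 : 0 < e1 := lt_min (by norm_num) (by positivity)
  set n : ℝ := N / (x / (2 * L ^ 2)) with hn
  have hn' : 2 * L ^ 2 * N = n * x := by
    rw [hn]; field_simp
  have hn0 : 0 ≤ n := by rw [hn]; positivity
  rw [hn'] at h3
  set r : ℝ := R / x with hr
  have hR : R = r * x := by rw [hr]; field_simp
  rw [hR] at h1 h3
  have h1' : |r - S| ≤ ε / 8 := by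
    have : r * x - x * S = (r - S) * x := by ring
    rw [this, abs_mul, abs_of_pos hx] at h1
    exact le_of_mul_le_mul_right h1 hx
  have h3' : |r - n| ≤ e1 * n := by
    have : r * x - n * x = (r - n) * x := by ring
    rw [this, abs_mul, abs_of_pos hx] at h3
    have h4 : |r - n| * x ≤ (e1 * n) * x := by linarith
    exact le_of_mul_le_mul_right h4 hx
  rw [abs_le] at h1' h2 h3'
  have hrs : r ≤ w2 + ε / 4 := by linarith
  have hn2 : n ≤ 2 * r := by nlinarith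
  have hn3 : n ≤ 2 * (w2 + ε) := by linarith
  have he : e1 * n ≤ ε / 2 := by
    calc e1 * n ≤ (ε / (4 * (w2 + ε))) * (2 * (w2 + ε)) :=
          mul_le_mul he1b hn3 hn0 (by positivity)
      _ = ε / 2 := by field_simp; ring
  rw [abs_le]
  constructor <;> linarith

theorem GRID (h1 : MSQ_stmt) (h2 : MTV_stmt) (h3 : WGT_stmt) : GRID_stmt := by
  intro θ ε hθ hε
  obtain ⟨K, x₀, hMSQ⟩ := h1 θ 7 hθ
  obtain ⟨w₀, hMTV⟩ := h2 (ε * (ε / 8) ^ 2 / 2) (by positivity)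
  refine ⟨w₀, fun w hw => ?_⟩
  obtain ⟨Q₀, hQ₀⟩ := hMTV w hw
  obtain ⟨x₁, hWGT⟩ := h3 (min (1 / 2) (ε / (4 * ((2 : ℝ) ^ w + ε)))) (lt_min (by norm_num) (by positivity))
  -- the threshold
  set X : ℕ := max (max x₀ x₁) (⌈Real.exp (2 ^ (K + 2) + 2)⌉₊ + 1) with hX
  have hlog : Filter.Tendsto (fun T : ℕ => Real.log (T : ℝ)) Filter.atTop Filter.atTop :=
    Real.tendsto_log_atTop.comp tendsto_natCast_atTop_atTop
  have hlit : ∀ᶠ T : ℕ in Filter.atTop, Real.log (T : ℝ) ^ (5 * (K + 2)) ≤ (T : ℝ) := by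
    have h := (Real.isLittleO_pow_log_id_atTop (n := 5 * (K + 2))).bound (c := 1) (by norm_num)
    have h' := tendsto_natCast_atTop_atTop (R := ℝ) |>.eventually h
    filter_upwards [h', Filter.eventually_ge_atTop 1] with T hT hT1
    simp only [id, one_mul, Real.norm_eq_abs] at hT
    have hT0 : (0 : ℝ) ≤ T := by positivity
    rw [abs_of_nonneg hT0] at hT
    exact (le_abs_self _).trans hT
  have hev := hlit.and ((hlog.eventually_ge_atTop
    (max (max 1 (Q₀ : ℝ)) (2 ^ 8 / ((ε / 8) ^ 2 * ε)))).and (Filter.eventually_ge_atTop (max 1 (X ^ 2))))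
  obtain ⟨T₀, hT₀⟩ := Filter.eventually_atTop.1 hev
  refine ⟨T₀, fun T hT G hG hGx => ?_⟩
  obtain ⟨hT5, hLbig, hTX⟩ := hT₀ T hT
  set L : ℝ := Real.log (T : ℝ) with hL
  have hL1 : 1 ≤ L := (le_max_left _ _).trans ((le_max_left _ _).trans hLbig)
  have hLQ : (Q₀ : ℝ) ≤ L := (le_max_right _ _).trans ((le_max_left _ _).trans hLbig)
  have hLc : 2 ^ 8 / ((ε / 8) ^ 2 * ε) ≤ L := (le_max_right _ _).trans hLbig
  have hT1 : 1 ≤ T := (le_max_left _ _).trans hTX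
  have hTX2 : X ^ 2 ≤ T := (le_max_right _ _).trans hTX
  have hTpos : (0 : ℝ) < T := by exact_mod_cast hT1
  set Q : ℕ := ⌊L ^ (K + 2)⌋₊ with hQ
  have hLpow : L ≤ L ^ (K + 2) := le_self_pow₀ hL1 (by omega)
  have hQge : Q₀ ≤ Q := Nat.le_floor (hLQ.trans hLpow)
  have hQle : (Q : ℝ) ≤ L ^ (K + 2) := Nat.floor_le (by positivity)
  have hQ5 : Q ^ 5 ≤ T := by
    have : ((Q ^ 5 : ℕ) : ℝ) ≤ (T : ℝ) := by
      push_cast
      calc (Q : ℝ) ^ 5 ≤ (L ^ (K + 2)) ^ 5 := pow_le_pow_left₀ (by positivity) hQle 5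
        _ = L ^ (5 * (K + 2)) := by rw [← pow_mul]; ring_nf
        _ ≤ T := hT5
    exact_mod_cast this
  -- facts on `x ∈ G`
  have hxf : ∀ x ∈ G, X ≤ x ∧ (2 : ℝ) ^ (K + 2) + 2 ≤ Real.log x ∧ Real.log x ≤ L ∧
      L ≤ 2 * Real.log x := by
    intro x hx
    obtain ⟨ha, hb⟩ := hGx x hx
    have hXx : X ≤ x := by
      by_contra hlt
      push Not at hlt
      have : x ^ 2 < X ^ 2 := Nat.pow_lt_pow_left hlt (by norm_num)
      omega
    have hx1 : ⌈Real.exp (2 ^ (K + 2) + 2)⌉₊ + 1 ≤ x := (le_max_right _ _).trans hXx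
    have hxe : Real.exp (2 ^ (K + 2) + 2) ≤ x := by
      calc Real.exp (2 ^ (K + 2) + 2) ≤ (⌈Real.exp (2 ^ (K + 2) + 2)⌉₊ : ℝ) := Nat.le_ceil _
        _ ≤ x := by exact_mod_cast (Nat.le_succ _).trans hx1
    have hxpos : (0 : ℝ) < x := lt_of_lt_of_le (Real.exp_pos _) hxe
    have hlx : (2 : ℝ) ^ (K + 2) + 2 ≤ Real.log x := by
      rw [← Real.log_exp (2 ^ (K + 2) + 2)]
      exact Real.log_le_log (Real.exp_pos _) hxe
    have hx1' : (1 : ℝ) ≤ x := by
      have : 1 ≤ x := (Nat.le_add_left 1 _).trans hx1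
      exact_mod_cast this
    refine ⟨hXx, hlx, ?_, ?_⟩
    · apply Real.log_le_log hxpos
      calc (x : ℝ) = (x : ℝ) ^ (1 : ℝ) := (Real.rpow_one _).symm
        _ ≤ (x : ℝ) ^ (1 + θ) := Real.rpow_le_rpow_of_exponent_le hx1' (by linarith)
        _ ≤ T := hb
    · have : Real.log (x : ℝ) * 2 = Real.log ((x : ℝ) ^ 2) := by
        rw [Real.log_pow]; push_cast; ring
      rw [mul_comm, this]
      apply Real.log_le_log hTpos
      have : T ≤ x ^ 2 := by omega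
      exact_mod_cast this
  -- the mean squares
  set I : Finset ℤ := Ioc (T : ℤ) (T + (T : ℕ)) with hI
  set SS : ℤ → ℝ := fun b => ∑ q ∈ Ioc 0 Q, AA q b with hSS
  have hm2 : ∑ b ∈ I, (SS b - sing w b) ^ 2 ≤ (ε * (ε / 8) ^ 2 / 2) * T :=
    hQ₀ Q hQge (T : ℤ) T hQ5
  have hm1 : ∀ x ∈ G, ∑ b ∈ I, (Rp x b - x * SS b) ^ 2 ≤ T * (x : ℝ) ^ 2 / Real.log x ^ 7 := by
    intro x hx
    obtain ⟨ha, hb⟩ := hGx x hx
    obtain ⟨hXx, hlx, hlL, hL2⟩ := hxf x hx
    have hp2 : (0 : ℝ) < 2 ^ (K + 2) := by positivity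
    have hlx1 : 1 ≤ Real.log x := by linarith
    apply hMSQ x (((le_max_left _ _).trans (le_max_left _ _)).trans hXx) Q
    · have h5 : L ^ (K + 2) < (Q : ℝ) + 1 := Nat.lt_floor_add_one _
      have h6 : Real.log x ^ (K + 2) ≤ L ^ (K + 2) := pow_le_pow_left₀ (by linarith) hlL _
      have h7 : Real.log x ^ K + 1 ≤ Real.log x ^ (K + 2) := by
        rw [pow_add]
        have h8 : 1 ≤ Real.log x ^ K := one_le_pow₀ hlx1
        have h9 : 2 ≤ Real.log x ^ 2 := by nlinarith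
        nlinarith
      linarith
    · calc (Q : ℝ) ≤ L ^ (K + 2) := hQle
        _ ≤ (2 * Real.log x) ^ (K + 2) := pow_le_pow_left₀ (by linarith) hL2 _
        _ = 2 ^ (K + 2) * Real.log x ^ (K + 2) := mul_pow _ _ _
        _ ≤ Real.log x * Real.log x ^ (K + 2) := by
            apply mul_le_mul_of_nonneg_right (by linarith) (by positivity)
        _ = Real.log x ^ (K + 3) := by ring
    · rw [abs_of_nonneg (by positivity)]
      have : T ≤ x ^ 2 := by omega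
      exact_mod_cast this
    · exact hb
    · omega
  -- the exceptional sets
  set E1 : ℕ → Finset ℤ := fun x => I.filter fun b => (ε / 8) * x < |Rp x b - x * SS b| with hE1
  set E2 : Finset ℤ := I.filter fun b => ε / 8 < |SS b - sing w b| with hE2
  have hE2c : (#E2 : ℝ) ≤ ε * T / 2 := by
    have h := GRID_markov I (fun b => SS b - sing w b) (ε / 8) (by positivity)
    have h' := h.trans hm2
    have h8 : (0 : ℝ) < (ε / 8) ^ 2 := by positivity
    have h9 : (#E2 : ℝ) * (ε / 8) ^ 2 ≤ (ε * T / 2) * (ε / 8) ^ 2 := by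
      calc (#E2 : ℝ) * (ε / 8) ^ 2 ≤ (ε * (ε / 8) ^ 2 / 2) * T := h'
        _ = (ε * T / 2) * (ε / 8) ^ 2 := by ring
    exact le_of_mul_le_mul_right h9 h8
  have hE1c : ∀ x ∈ G, (#(E1 x) : ℝ) ≤ T * 2 ^ 7 / ((ε / 8) ^ 2 * L ^ 7) := by
    intro x hx
    obtain ⟨hXx, hlx, hlL, hL2⟩ := hxf x hx
    have hp2 : (0 : ℝ) < 2 ^ (K + 2) := by positivity
    have hlx1 : 1 ≤ Real.log x := by linarith
    have hx1 : 1 ≤ x := (le_max_right _ _).trans hXx |>.trans' (Nat.le_add_left 1 _)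
    have hxpos : (0 : ℝ) < x := by exact_mod_cast hx1
    have h := GRID_markov I (fun b => Rp x b - x * SS b) ((ε / 8) * x) (by positivity)
    have h' := h.trans (hm1 x hx)
    have h8 : (0 : ℝ) < ((ε / 8) * x) ^ 2 := by positivity
    have h9 : (#(E1 x) : ℝ) ≤ (T * (x : ℝ) ^ 2 / Real.log x ^ 7) / ((ε / 8) * x) ^ 2 := by
      rw [le_div_iff₀ h8]
      exact h'
    refine h9.trans ?_
    have h10 : (T * (x : ℝ) ^ 2 / Real.log x ^ 7) / ((ε / 8) * x) ^ 2 =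
        T / ((ε / 8) ^ 2 * Real.log x ^ 7) := by
      field_simp
    rw [h10]
    have h11 : L ^ 7 ≤ 2 ^ 7 * Real.log x ^ 7 := by
      rw [← mul_pow]
      exact pow_le_pow_left₀ (by linarith) hL2 7
    rw [div_le_div_iff₀ (by positivity) (by positivity)]
    have h12 : (T : ℝ) * (ε / 8) ^ 2 * L ^ 7 ≤ (T : ℝ) * (ε / 8) ^ 2 * (2 ^ 7 * Real.log x ^ 7) :=
      mul_le_mul_of_nonneg_left h11 (by positivity)
    nlinarith
  -- the bad set is covered
  set Bad : Finset ℕ := (Ioc T (2 * T)).filter fun b : ℕ => ∃ x ∈ G,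
    ε < |(#(pairs x (b : ℤ)) : ℝ) / (x / (2 * Real.log x ^ 2)) - sing w (b : ℤ)| with hBad
  have hcov : Bad.image (fun b : ℕ => (b : ℤ)) ⊆ G.biUnion E1 ∪ E2 := by
    intro z hz
    rw [mem_image] at hz
    obtain ⟨b, hb, rfl⟩ := hz
    rw [hBad, mem_filter, mem_Ioc] at hb
    obtain ⟨⟨hb1, hb2⟩, x, hx, hbx⟩ := hb
    by_contra hnot
    rw [mem_union, mem_biUnion, not_or] at hnot
    obtain ⟨hn1, hn2⟩ := hnot
    have hbI : (b : ℤ) ∈ I := by
      rw [hI, mem_Ioc]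
      constructor
      · exact_mod_cast hb1
      · have : b ≤ T + T := by omega
        exact_mod_cast this
    have hg2 : |SS (b : ℤ) - sing w (b : ℤ)| ≤ ε / 8 := by
      by_contra hlt
      push Not at hlt
      exact hn2 (mem_filter.2 ⟨hbI, hlt⟩)
    have hg1 : |Rp x (b : ℤ) - x * SS (b : ℤ)| ≤ (ε / 8) * x := by
      by_contra hlt
      push Not at hlt
      exact hn1 ⟨x, hx, mem_filter.2 ⟨hbI, hlt⟩⟩
    obtain ⟨ha, hb'⟩ := hGx x hx
    obtain ⟨hXx, hlx, hlL, hL2⟩ := hxf x hx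
    have hp2 : (0 : ℝ) < 2 ^ (K + 2) := by positivity
    have hx1 : 1 ≤ x := (le_max_right _ _).trans hXx |>.trans' (Nat.le_add_left 1 _)
    have hxpos : (0 : ℝ) < x := by exact_mod_cast hx1
    have hg3 := hWGT x (((le_max_right _ _).trans (le_max_left _ _)).trans hXx) (b : ℤ)
      (by have h0 : (0 : ℤ) ≤ (x : ℤ) ^ 2 := by positivity
          have h00 : (0 : ℤ) ≤ (b : ℤ) := by positivity
          linarith)
      (by have h0 : b ≤ 2 * x ^ 2 := by omega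
          exact_mod_cast h0)
    have := GRID_arith ε (2 ^ w) hε (one_le_pow₀ (by norm_num)) x (Real.log x) (#(pairs x (b : ℤ)))
      (Rp x (b : ℤ)) (SS (b : ℤ)) (sing w (b : ℤ)) hxpos (by linarith) (by positivity)
      (GRID_sing_le w b) hg1 hg2 hg3
    exact absurd hbx (not_lt.2 this)
  have hcard : (#Bad : ℝ) ≤ ∑ x ∈ G, (#(E1 x) : ℝ) + #E2 := by
    have h10 : #Bad = #(Bad.image (fun b : ℕ => (b : ℤ))) :=
      (card_image_of_injective _ Nat.cast_injective).symm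
    have h11 : #Bad ≤ ∑ x ∈ G, #(E1 x) + #E2 := by
      rw [h10]
      refine (card_le_card hcov).trans ((card_union_le _ _).trans ?_)
      exact Nat.add_le_add_right card_biUnion_le _
    exact_mod_cast h11
  have hsum : ∑ x ∈ G, (#(E1 x) : ℝ) ≤ ε * T / 2 := by
    calc ∑ x ∈ G, (#(E1 x) : ℝ) ≤ ∑ _x ∈ G, T * 2 ^ 7 / ((ε / 8) ^ 2 * L ^ 7) := sum_le_sum hE1c
      _ = (#G : ℝ) * (T * 2 ^ 7 / ((ε / 8) ^ 2 * L ^ 7)) := by rw [sum_const, nsmul_eq_mul]
      _ ≤ L ^ 4 * (T * 2 ^ 7 / ((ε / 8) ^ 2 * L ^ 7)) :=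
          mul_le_mul_of_nonneg_right hG (by positivity)
      _ = T * 2 ^ 7 / ((ε / 8) ^ 2 * L ^ 3) := by
          have : L ≠ 0 := by linarith
          field_simp
      _ ≤ ε * T / 2 := by
          rw [div_le_div_iff₀ (by positivity) (by norm_num)]
          have h12 : 2 ^ 8 ≤ L * ((ε / 8) ^ 2 * ε) := by
            rw [div_le_iff₀ (by positivity)] at hLc
            exact hLc
          have h13 : L ≤ L ^ 3 := le_self_pow₀ hL1 (by norm_num)
          have h14 : 2 ^ 8 ≤ L ^ 3 * ((ε / 8) ^ 2 * ε) :=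
            h12.trans (mul_le_mul_of_nonneg_right h13 (by positivity))
          calc (T : ℝ) * 2 ^ 7 * 2 = T * 2 ^ 8 := by ring
            _ ≤ T * (L ^ 3 * ((ε / 8) ^ 2 * ε)) := mul_le_mul_of_nonneg_left h14 hTpos.le
            _ = ε * T * ((ε / 8) ^ 2 * L ^ 3) := by ring
  linarith

end Pool.Agent.BQ
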